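import Mathlib

/-!
Godsil–McKay switching with respect to several cells of size four, in matrix form.
-/

namespace Pool.Agent.Helper64

open Finset Matrix

variable {V ι : Type*} [Fintype V] [DecidableEq V] [DecidableEq ι]

/-- The switching matrix: `c x = none` outside the cells, `c x = some i` in the cell `i`. -/
noncomputable def gmQ (c : V → Option ι) : Matrix V V ℝ := fun x y =>
  if c x = none then (if x = y then 1 else 0)
  else if c x = c y then 1 / 2 - (if x = y then 1 else 0) else 0

theorem gmQ_sum_none (c : V → Option ι) (f : V → ℝ) (x : V) (h : c x = none) :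
    ∑ z, gmQ c x z * f z = f x := by
  simp [gmQ, h]

theorem gmQ_sum_some (c : V → Option ι) (f : V → ℝ) (x : V) (i : ι) (h : c x = some i) :
    ∑ z, gmQ c x z * f z = 1 / 2 * ∑ z ∈ univ.filter (fun z => c z = some i), f z - f x := by
  have : ∀ z, gmQ c x z * f z
      = (if c z = some i then 1 / 2 * f z else 0) - (if x = z then f z else 0) := by
    intro z
    simp only [gmQ, h, reduceCtorEq, if_false]
    by_cases h1 : c z = some i
    · by_cases h2 : x = z
      · subst h2; simp [h]; ring
      · simp [h1, h2]
    · have h2 : x ≠ z := by rintro rfl; exact h1 h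
      have h3 : some i ≠ c z := fun e => h1 e.symm
      simp [h1, h2, h3]
  simp_rw [this]
  rw [Finset.sum_sub_distrib, ← Finset.sum_filter, Finset.mul_sum]
  simp

theorem gmQ_symm (c : V → Option ι) (x y : V) : gmQ c x y = gmQ c y x := by
  unfold gmQ
  by_cases hxy : x = y
  · subst hxy; rfl
  · have hyx : y ≠ x := fun e => hxy e.symm
    rcases hx : c x with _ | i <;> rcases hy : c y with _ | j
    · simp [hxy, hyx]
    · simp [hxy]
    · simp [hyx]
    · simp [hxy, hyx, eq_comm]

theorem gmQ_transpose (c : V → Option ι) : (gmQ c)ᵀ = gmQ c := by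
  ext x y; simp [gmQ_symm c y x]

/-- each cell has exactly four elements -/
def CellsFour (c : V → Option ι) : Prop :=
  ∀ x i, c x = some i → (univ.filter (fun z => c z = some i)).card = 4

theorem gmQ_mul_self (c : V → Option ι) (h : CellsFour c) : gmQ c * gmQ c = 1 := by
  ext x y
  rw [Matrix.mul_apply]
  rcases hx : c x with _ | i
  · rw [gmQ_sum_none c (fun z => gmQ c z y) x hx]
    simp [gmQ, hx, Matrix.one_apply]
  · rw [gmQ_sum_some c (fun z => gmQ c z y) x i hx]
    have h4 := h x i hx
    by_cases hy : c y = some i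
    · have : ∀ z ∈ univ.filter (fun z => c z = some i), gmQ c z y = 1 / 2 - (if z = y then 1 else 0) := by
        intro z hz
        simp only [mem_filter, mem_univ, true_and] at hz
        simp [gmQ, hz, hy]
      rw [Finset.sum_congr rfl this, Finset.sum_sub_distrib, Finset.sum_const, h4]
      have hm : y ∈ univ.filter (fun z => c z = some i) := by simp [hy]
      rw [Finset.sum_ite_eq' _ y, if_pos hm]
      simp only [gmQ, hx, hy, reduceCtorEq, if_false, if_true, Matrix.one_apply]
      norm_num
    · have : ∀ z ∈ univ.filter (fun z => c z = some i), gmQ c z y = 0 := by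
        intro z hz
        simp only [mem_filter, mem_univ, true_and] at hz
        have h3 : some i ≠ c y := fun e => hy e.symm
        simp [gmQ, hz, h3]
      rw [Finset.sum_eq_zero this]
      have h3 : some i ≠ c y := fun e => hy e.symm
      have hxy : x ≠ y := by rintro rfl; exact hy hx
      simp [gmQ, hx, h3, Matrix.one_apply, hxy]

/-- the switched matrix -/
noncomputable def gmB (c : V → Option ι) (A : Matrix V V ℝ) : Matrix V V ℝ := gmQ c * A * gmQ c

theorem gmB_apply (c : V → Option ι) (A : Matrix V V ℝ) (x y : V) :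
    gmB c A x y = ∑ w, gmQ c y w * ∑ z, gmQ c x z * A z w := by
  rw [gmB, Matrix.mul_apply]
  refine Finset.sum_congr rfl fun w _ => ?_
  rw [Matrix.mul_apply, gmQ_symm c w y, mul_comm]

theorem gmB_none_none (c : V → Option ι) (A : Matrix V V ℝ) (x y : V) (hx : c x = none)
    (hy : c y = none) : gmB c A x y = A x y := by
  rw [gmB_apply, gmQ_sum_none c _ y hy, gmQ_sum_none c (fun z => A z y) x hx]

theorem gmB_none_some (c : V → Option ι) (A : Matrix V V ℝ) (x y : V) (hx : c x = none)
    (j : ι) (hy : c y = some j) :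
    gmB c A x y = 1 / 2 * ∑ z ∈ univ.filter (fun z => c z = some j), A x z - A x y := by
  rw [gmB_apply, gmQ_sum_some c _ y j hy, gmQ_sum_none c (fun z => A z y) x hx]
  congr 2
  refine Finset.sum_congr rfl fun z _ => ?_
  rw [gmQ_sum_none c (fun w => A w z) x hx]

theorem gmB_some_some (c : V → Option ι) (A : Matrix V V ℝ) (hc : CellsFour c)
    (d : ι → ι → ℝ) (hd : ∀ i j, d i j = d j i) (hsym : ∀ x y, A x y = A y x)
    (h2 : ∀ x i j, c x = some i → ∑ z ∈ univ.filter (fun z => c z = some j), A x z = d i j)
    (x y : V) (i j : ι) (hx : c x = some i) (hy : c y = some j) :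
    gmB c A x y = A x y := by
  rw [gmB_apply, gmQ_sum_some c _ y j hy, gmQ_sum_some c (fun z => A z y) x i hx]
  have e1 : ∑ z ∈ univ.filter (fun z => c z = some i), A z y = d j i := by
    rw [← h2 y j i hy]
    exact Finset.sum_congr rfl fun z _ => hsym z y
  have e2 : ∀ w ∈ univ.filter (fun z => c z = some j),
      ∑ z, gmQ c x z * A z w = 1 / 2 * d j i - A x w := by
    intro w hw
    simp only [mem_filter, mem_univ, true_and] at hw
    rw [gmQ_sum_some c (fun z => A z w) x i hx]
    congr 2
    rw [← h2 w j i hw]
    exact Finset.sum_congr rfl fun z _ => hsym z w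
  rw [Finset.sum_congr rfl e2, Finset.sum_sub_distrib, Finset.sum_const, hc y j hy, h2 x i j hx, e1,
    hd i j]
  simp
  ring

theorem gmB_isSymm (c : V → Option ι) (A : Matrix V V ℝ) (hsym : Aᵀ = A) : (gmB c A)ᵀ = gmB c A := by
  simp [gmB, Matrix.transpose_mul, gmQ_transpose, hsym, Matrix.mul_assoc]

theorem gmB_isAdj (c : V → Option ι) (A : Matrix V V ℝ) (hA : A.IsAdjMatrix) (hc : CellsFour c)
    (h1 : ∀ x i, c x = none → ∑ z ∈ univ.filter (fun z => c z = some i), A x z = 0 ∨
      ∑ z ∈ univ.filter (fun z => c z = some i), A x z = 2 ∨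
      ∑ z ∈ univ.filter (fun z => c z = some i), A x z = 4)
    (d : ι → ι → ℝ) (hd : ∀ i j, d i j = d j i)
    (h2 : ∀ x i j, c x = some i → ∑ z ∈ univ.filter (fun z => c z = some j), A x z = d i j) :
    (gmB c A).IsAdjMatrix := by
  have hs : (gmB c A)ᵀ = gmB c A := gmB_isSymm c A hA.symm
  have hsym : ∀ x y, A x y = A y x := fun x y => (hA.symm.apply x y).symm
  have hB : ∀ x y, gmB c A x y = gmB c A y x := fun x y => by
    conv_lhs => rw [← hs]
    rfl
  have key : ∀ x y j, c x = none → c y = some j → (gmB c A x y = 0 ∨ gmB c A x y = 1) := by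
    intro x y j hx hy
    rw [gmB_none_some c A x y hx j hy]
    have hym : y ∈ univ.filter (fun z => c z = some j) := by simp [hy]
    rcases h1 x j hx with h | h | h
    · -- all zero
      have hz : A x y = 0 := by
        have hnn : ∀ z ∈ univ.filter (fun z => c z = some j), 0 ≤ A x z := by
          intro z _; rcases hA.zero_or_one x z with h | h <;> rw [h] <;> norm_num
        exact (Finset.sum_eq_zero_iff_of_nonneg hnn).mp h y hym
      left; rw [h, hz]; norm_num
    · rcases hA.zero_or_one x y with h' | h'
      · right; rw [h, h']; norm_num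
      · left; rw [h, h']; norm_num
    · have hz : A x y = 1 := by
        have hnn : ∀ z ∈ univ.filter (fun z => c z = some j), 0 ≤ 1 - A x z := by
          intro z _; rcases hA.zero_or_one x z with h | h <;> rw [h] <;> norm_num
        have hs0 : ∑ z ∈ univ.filter (fun z => c z = some j), (1 - A x z) = 0 := by
          rw [Finset.sum_sub_distrib, h, Finset.sum_const, hc y j hy]; norm_num
        have := (Finset.sum_eq_zero_iff_of_nonneg hnn).mp hs0 y hym
        linarith
      right; rw [h, hz]; norm_num
  refine ⟨?_, hs, ?_⟩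
  · intro x y
    rcases hx : c x with _ | i <;> rcases hy : c y with _ | j
    · rw [gmB_none_none c A x y hx hy]; exact hA.zero_or_one x y
    · exact key x y j hx hy
    · rw [hB x y]; exact key y x i hy hx
    · rw [gmB_some_some c A hc d hd hsym h2 x y i j hx hy]; exact hA.zero_or_one x y
  · intro x
    rcases hx : c x with _ | i
    · rw [gmB_none_none c A x x hx hx]; exact hA.apply_diag x
    · rw [gmB_some_some c A hc d hd hsym h2 x x i i hx hx]; exact hA.apply_diag x

theorem gmB_charpoly (c : V → Option ι) (A : Matrix V V ℝ) (hc : CellsFour c) :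
    (gmB c A).charpoly = A.charpoly := by
  have hQ := gmQ_mul_self c hc
  let U : (Matrix V V ℝ)ˣ := ⟨gmQ c, gmQ c, hQ, hQ⟩
  have := Matrix.charpoly_units_conj U A
  have e : (U : Matrix V V ℝ)⁻¹ = gmQ c := Matrix.inv_eq_right_inv hQ
  rw [e] at this
  exact this

theorem gmB_mul (c : V → Option ι) (A A' : Matrix V V ℝ) (hc : CellsFour c) :
    gmB c A * gmB c A' = gmB c (A * A') := by
  have hQ := gmQ_mul_self c hc
  unfold gmB
  calc gmQ c * A * gmQ c * (gmQ c * A' * gmQ c)
      = gmQ c * A * (gmQ c * gmQ c) * A' * gmQ c := by simp only [Matrix.mul_assoc]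
    _ = gmQ c * (A * A') * gmQ c := by rw [hQ]; simp only [Matrix.mul_assoc, Matrix.one_mul]

end Pool.Agent.Helper64
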