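import Mathlib

namespace Pool.Agent.Helper64

/-- `k`-subsets of `Fin n` -/
abbrev KSub (n k : ℕ) : Type := {A : Finset (Fin n) // A.card = k}

/-- The generalized Johnson graph `J_S(n,k)`. -/
def genJohnson (S : Set ℕ) (n k : ℕ) : SimpleGraph (KSub n k) where
  Adj A B := A ≠ B ∧ (A.1 ∩ B.1).card ∈ S
  symm := ⟨fun A B h => ⟨h.1.symm, by rw [Finset.inter_comm]; exact h.2⟩⟩
  loopless := ⟨fun A h => h.1 rfl⟩

/-- `E_k = {s : 2 ≤ s ≤ k - 1, s even}` -/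
def evenSet (k : ℕ) : Set ℕ := {s | 2 ≤ s ∧ s ≤ k - 1 ∧ Even s}

end Pool.Agent.Helper64
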