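import Mathlib

/-!
Central Krawtchouk numbers: `kt k s` is the coefficient of `X ^ k` in
`(1 - X) ^ (2 s) * (1 + X) ^ (2 (k - s))`.
-/

namespace Pool.Agent.Helper64

open Polynomial Finset

/-- generating polynomial with `a` minus signs and `b` plus signs -/
noncomputable def kpoly (a b : ℕ) : ℤ[X] := (1 - X) ^ a * (1 + X) ^ b

/-- sum over `k`-subsets of `(-1)^|Z ∩ D|` -/
theorem sum_powersetCard_neg_one {α : Type*} [Fintype α] [DecidableEq α] (D : Finset α) (k : ℕ) :
    ∑ Z ∈ (univ : Finset α).powersetCard k, (-1 : ℤ) ^ (Z ∩ D).card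
      = (kpoly D.card (Fintype.card α - D.card)).coeff k := by
  have h1 : (∏ i : α, (1 + C (if i ∈ D then (-1 : ℤ) else 1) * X))
      = kpoly D.card (Fintype.card α - D.card) := by
    rw [kpoly]
    have : ∀ i : α, (1 + C (if i ∈ D then (-1 : ℤ) else 1) * X)
        = if i ∈ D then (1 - X : ℤ[X]) else (1 + X) := by
      intro i
      split_ifs <;> simp [sub_eq_add_neg]
    simp_rw [this]
    rw [Finset.prod_ite]
    simp only [Finset.prod_const]
    congr 2
    · congr 1
      ext i; simp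
    · have : (Finset.univ.filter (fun i => i ∉ D)) = Dᶜ := by ext i; simp
      rw [this, Finset.card_compl]
  rw [← h1]
  rw [Finset.prod_add]
  simp only [Finset.prod_const_one, one_mul]
  rw [Polynomial.finsetSum_coeff]
  -- reindex by complement
  have h2 : ∀ t ∈ (univ : Finset α).powerset,
      (∏ i ∈ univ \ t, (C (if i ∈ D then (-1 : ℤ) else 1) * X)).coeff k
        = if (univ \ t).card = k then (-1 : ℤ) ^ ((univ \ t) ∩ D).card else 0 := by
    intro t _
    rw [Finset.prod_mul_distrib, Finset.prod_const, ← map_prod, coeff_C_mul, coeff_X_pow]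
    by_cases h : (univ \ t).card = k
    · rw [if_pos h, if_pos h.symm, mul_one]
      rw [Finset.prod_ite]
      simp only [Finset.prod_const, one_pow, mul_one]
      congr 2
    · rw [if_neg h, if_neg (fun h' => h h'.symm), mul_zero]
  rw [Finset.sum_congr rfl h2]
  rw [← Finset.sum_filter]
  refine Finset.sum_bij' (fun Z _ => univ \ Z) (fun t _ => univ \ t) ?_ ?_ ?_ ?_ ?_
  · intro Z hZ
    simp only [mem_powersetCard] at hZ
    simp [hZ.2]
  · intro t ht
    simp only [mem_filter] at ht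
    simp [mem_powersetCard, ht.2]
  · intro Z _; simp
  · intro t _; simp
  · intro Z _; simp

/-- central Krawtchouk number -/
noncomputable def kt (k s : ℕ) : ℤ := (kpoly (2 * s) (2 * (k - s))).coeff k

theorem kt_zero (k : ℕ) : kt k 0 = (Nat.centralBinom k : ℤ) := by
  simp only [kt, kpoly, mul_zero, pow_zero, one_mul, Nat.sub_zero]
  rw [add_comm, Polynomial.coeff_X_add_one_pow]
  rfl

theorem kt_rec (k s : ℕ) (h : s ≤ k) : kt (k + 1) s - kt (k + 1) (s + 1) = 4 * kt k s := by
  obtain ⟨m, rfl⟩ := Nat.exists_eq_add_of_le h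
  simp only [kt, kpoly]
  rw [← coeff_sub]
  have e1 : s + m + 1 - s = m + 1 := by omega
  have e2 : s + m + 1 - (s + 1) = m := by omega
  have e3 : s + m - s = m := by omega
  rw [e1, e2, e3]
  have : (1 - X : ℤ[X]) ^ (2 * s) * (1 + X) ^ (2 * (m + 1)) - (1 - X) ^ (2 * (s + 1)) * (1 + X) ^ (2 * m)
      = C 4 * (((1 - X) ^ (2 * s) * (1 + X) ^ (2 * m)) * X) := by
    have : (C 4 : ℤ[X]) = 4 := rfl
    rw [this]
    ring
  rw [this, coeff_C_mul, coeff_mul_X]

/-- the ratio relation -/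
theorem kt_ratio (s : ℕ) : ∀ k : ℕ, s + 1 ≤ k →
    (2 * (k : ℤ) - 2 * s - 1) * kt k (s + 1) = - (2 * s + 1) * kt k s := by
  induction s with
  | zero =>
    intro k hk
    obtain ⟨k, rfl⟩ : ∃ j, k = j + 1 := ⟨k - 1, by omega⟩
    have h := kt_rec k 0 (Nat.zero_le _)
    have h0 := kt_zero (k + 1)
    have h1 := kt_zero k
    have hc : ((k + 1 : ℕ) : ℤ) * (Nat.centralBinom (k + 1) : ℤ)
        = 2 * (2 * (k : ℤ) + 1) * (Nat.centralBinom k : ℤ) := by
      exact_mod_cast Nat.succ_mul_centralBinom_succ k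
    push_cast at hc ⊢
    rw [h0, h1] at h
    rw [h0]
    simp only [zero_add] at *
    have : kt (k + 1) 1 = (Nat.centralBinom (k + 1) : ℤ) - 4 * (Nat.centralBinom k : ℤ) := by linarith
    rw [this]
    nlinarith [hc]
  | succ s ih =>
    intro k hk
    obtain ⟨k, rfl⟩ : ∃ j, k = j + 1 := ⟨k - 1, by omega⟩
    have hA := ih (k + 1) (by omega)
    have hB := ih k (by omega)
    have hC := kt_rec k s (by omega)
    have hD := kt_rec k (s + 1) (by omega)
    push_cast at hA hB ⊢
    -- T_{k}(s)*4 = T_{k+1}(s) - T_{k+1}(s+1)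
    have hpos : (2 * (s : ℤ) + 1) ≠ 0 := by positivity
    have key : (2 * (s : ℤ) + 1) * ((2 * ((k : ℤ) + 1) - 2 * (s + 1) - 1) * kt (k + 1) (s + 1 + 1)
        + (2 * (s + 1) + 1) * kt (k + 1) (s + 1)) = 0 := by
      have e : kt (k + 1) (s + 1 + 1) = kt (k + 1) (s + 1) - 4 * kt k (s + 1) := by linarith
      rw [e]
      have e2 : 4 * kt k s = kt (k + 1) s - kt (k + 1) (s + 1) := by linarith
      linear_combination (-(4 : ℤ)) * (2 * (s : ℤ) + 1) * hB - (2 * (s : ℤ) + 1) * (2 * (s : ℤ) + 1) * hC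
        + (2 * (s : ℤ) + 1) * hA
    rcases mul_eq_zero.mp key with h | h
    · exact absurd h hpos
    · linear_combination h

/-- absolute value of the central Krawtchouk number -/
noncomputable def ku (k s : ℕ) : ℤ := (-1) ^ s * kt k s

theorem kt_eq_ku (k s : ℕ) : kt k s = (-1) ^ s * ku k s := by
  rw [ku, ← mul_assoc, ← pow_add, ← two_mul, pow_mul]; simp

theorem ku_ratio (k s : ℕ) (h : s + 1 ≤ k) :
    (2 * (k : ℤ) - 2 * s - 1) * ku k (s + 1) = (2 * s + 1) * ku k s := by
  have := kt_ratio s k h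
  rw [ku, ku, pow_succ]
  linear_combination (-(-1 : ℤ) ^ s) * this

theorem ku_pos (k s : ℕ) (h : s ≤ k) : 0 < ku k s := by
  induction s with
  | zero =>
    rw [ku, kt_zero]; simp [Nat.centralBinom_pos]
  | succ s ih =>
    have h1 := ku_ratio k s h
    have h2 := ih (by omega)
    have h3 : (0 : ℤ) < 2 * (k : ℤ) - 2 * s - 1 := by
      have : ((s + 1 : ℕ) : ℤ) ≤ k := by exact_mod_cast h
      push_cast at this; linarith
    have h4 : 0 < (2 * (k : ℤ) - 2 * s - 1) * ku k (s + 1) := by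
      rw [h1]; positivity
    exact (mul_pos_iff_of_pos_left h3).mp h4

theorem kt_self (k : ℕ) : kt k k = (-1) ^ k * (Nat.centralBinom k : ℤ) := by
  have h := sum_powersetCard_neg_one (univ : Finset (Fin (2 * k))) k
  simp only [Finset.card_univ, Fintype.card_fin, Nat.sub_self] at h
  rw [kt, Nat.sub_self, mul_zero, ← h]
  have : ∀ Z ∈ (univ : Finset (Fin (2 * k))).powersetCard k, (-1 : ℤ) ^ (Z ∩ univ).card = (-1) ^ k := by
    intro Z hZ
    rw [mem_powersetCard] at hZ
    rw [Finset.inter_univ, hZ.2]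
  rw [Finset.sum_congr rfl this, Finset.sum_const, Finset.card_powersetCard, Finset.card_univ,
    Fintype.card_fin]
  rw [nsmul_eq_mul, mul_comm]
  rfl

theorem ku_zero (k : ℕ) : ku k 0 = Nat.centralBinom k := by
  rw [ku, kt_zero]; simp

theorem ku_self (k : ℕ) : ku k k = Nat.centralBinom k := by
  rw [ku, kt_self, ← mul_assoc, ← pow_add, ← two_mul, pow_mul]; simp

theorem ku_symm (k : ℕ) : ∀ s : ℕ, s ≤ k → ku k (k - s) = ku k s := by
  intro s
  induction s with
  | zero => intro _; rw [Nat.sub_zero, ku_self, ku_zero]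
  | succ s ih =>
    intro h
    have h1 := ih (by omega)
    obtain ⟨m, rfl⟩ := Nat.exists_eq_add_of_le h
    have e1 : s + 1 + m - s = m + 1 := by omega
    have e2 : s + 1 + m - (s + 1) = m := by omega
    rw [e1] at h1
    rw [e2]
    have h2 := ku_ratio (s + 1 + m) s (by omega)
    have h3 := ku_ratio (s + 1 + m) m (by omega)
    rw [h1] at h3
    push_cast at h2 h3
    have h4 : (2 * (m : ℤ) + 1) * (ku (s + 1 + m) m - ku (s + 1 + m) (s + 1)) = 0 := by
      linear_combination (-1 : ℤ) * h3 - (1 : ℤ) * h2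
    rcases mul_eq_zero.mp h4 with h5 | h5
    · have : (0 : ℤ) < 2 * (m : ℤ) + 1 := by positivity
      omega
    · linarith

/-- first half is decreasing -/
theorem ku_le_one_aux (k : ℕ) : ∀ s : ℕ, 1 ≤ s → 2 * s ≤ k + 1 → s ≤ k → ku k s ≤ ku k 1 := by
  intro s hs
  induction s, hs using Nat.le_induction with
  | base => intro _ _; exact le_rfl
  | succ s hs ih =>
    intro h1 h2
    have h3 := ih (by omega) (by omega)
    have h4 := ku_ratio k s h2
    have h5 := ku_pos k (s + 1) h2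
    have h6 : (2 * (s : ℤ) + 1) ≤ 2 * (k : ℤ) - 2 * s - 1 := by
      have : ((2 * (s + 1) : ℕ) : ℤ) ≤ ((k + 1 : ℕ) : ℤ) := by exact_mod_cast h1
      push_cast at this
      have h7 : ((1 : ℕ) : ℤ) ≤ (s : ℤ) := by exact_mod_cast hs
      have h8 : ((s + 1 : ℕ) : ℤ) ≤ (k : ℤ) := by exact_mod_cast h2
      push_cast at h7 h8
      linarith
    have h7 : (2 * (s : ℤ) + 1) * ku k (s + 1) ≤ (2 * (s : ℤ) + 1) * ku k s := by
      rw [← h4]
      exact mul_le_mul_of_nonneg_right h6 h5.le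
    have h8 : ku k (s + 1) ≤ ku k s := le_of_mul_le_mul_left h7 (by positivity)
    linarith

theorem ku_le_one (k s : ℕ) (h1 : 1 ≤ s) (h2 : s + 1 ≤ k) : ku k s ≤ ku k 1 := by
  by_cases h : 2 * s ≤ k + 1
  · exact ku_le_one_aux k s h1 h (by omega)
  · rw [← ku_symm k s (by omega)]
    exact ku_le_one_aux k (k - s) (by omega) (by omega) (by omega)

theorem ku_three_lt (k : ℕ) (h : 5 ≤ k) : ku k 3 < ku k 1 := by
  have h1 := ku_ratio k 1 (by omega)
  have h2 := ku_ratio k 2 (by omega)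
  have p1 := ku_pos k 1 (by omega)
  have p2 := ku_pos k 2 (by omega)
  have p3 := ku_pos k 3 (by omega)
  push_cast at h1 h2
  have hk : (5 : ℤ) ≤ k := by exact_mod_cast h
  nlinarith

theorem ku_one_ge (k : ℕ) (h : 5 ≤ k) : 28 ≤ ku k 1 := by
  -- (2k-1) * ku 1 = centralBinom k
  induction k, h using Nat.le_induction with
  | base =>
    have h0 := ku_ratio 5 0 (by norm_num)
    rw [ku_zero] at h0
    have : Nat.centralBinom 5 = 252 := by decide
    rw [this] at h0
    push_cast at h0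
    norm_num at h0
    omega
  | succ k hk ih =>
    have h0 := ku_ratio k 0 (by omega)
    have h1 := ku_ratio (k + 1) 0 (by omega)
    rw [ku_zero] at h0 h1
    have hc : ((k + 1 : ℕ) : ℤ) * (Nat.centralBinom (k + 1) : ℤ)
        = 2 * (2 * (k : ℤ) + 1) * (Nat.centralBinom k : ℤ) := by
      exact_mod_cast Nat.succ_mul_centralBinom_succ k
    push_cast at h0 h1 hc
    norm_num at h0 h1
    have hk' : (5 : ℤ) ≤ k := by exact_mod_cast hk
    -- (2k+1) u' = cb', (2k-1) u = cb ; (k+1) cb' = 2(2k+1) cb => (k+1) u' = 2 (2k-1) u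
    have e : (2 * (k : ℤ) + 1) * (((k : ℤ) + 1) * ku (k + 1) 1) = (2 * (k : ℤ) + 1) * (2 * (2 * k - 1) * ku k 1) := by
      linear_combination ((k : ℤ) + 1) * h1 + hc - 2 * (2 * (k : ℤ) + 1) * h0
    have e2 : ((k : ℤ) + 1) * ku (k + 1) 1 = 2 * (2 * k - 1) * ku k 1 :=
      mul_left_cancel₀ (by positivity) e
    nlinarith

theorem centralBinom_eq (k : ℕ) (h : 1 ≤ k) :
    (Nat.centralBinom k : ℤ) = (2 * (k : ℤ) - 1) * ku k 1 := by
  have h0 := ku_ratio k 0 (by omega)
  rw [ku_zero] at h0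
  push_cast at h0
  norm_num at h0
  linarith

end Pool.Agent.Helper64
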