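import Mathlib
import Pool.Agent.Helper64.JohnsonDefs
import Pool.Agent.Helper64.Kraw
import Pool.Agent.Helper64.GM

namespace Pool.Agent.Helper64

open Finset Matrix

section

variable {k : ℕ}

/-- complement -/
def cpl (x : KSub (2 * k) k) : KSub (2 * k) k :=
  ⟨x.1ᶜ, by rw [Finset.card_compl, x.2, Fintype.card_fin]; omega⟩

theorem cpl_cpl (x : KSub (2 * k) k) : cpl (cpl x) = x := by
  apply Subtype.ext; simp [cpl]

theorem cpl_eq_iff (x y : KSub (2 * k) k) : cpl x = y ↔ x = cpl y := by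
  constructor
  · rintro rfl; rw [cpl_cpl]
  · rintro rfl; rw [cpl_cpl]

theorem inter_cpl_card (x y : KSub (2 * k) k) :
    (x.1 ∩ (cpl y).1).card = k - (x.1 ∩ y.1).card := by
  have h : (x.1 ∩ (cpl y).1) = x.1 \ y.1 := by
    ext i; simp [cpl]
  rw [h, Finset.card_sdiff, x.2, Finset.inter_comm]

theorem inter_card_le (x y : KSub (2 * k) k) : (x.1 ∩ y.1).card ≤ k := by
  have := Finset.card_le_card (Finset.inter_subset_left (s₁ := x.1) (s₂ := y.1))
  rwa [x.2] at this

theorem inter_card_eq_iff (x y : KSub (2 * k) k) : (x.1 ∩ y.1).card = k ↔ x = y := by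
  constructor
  · intro h
    have h1 : x.1 ∩ y.1 = x.1 := Finset.eq_of_subset_of_card_le Finset.inter_subset_left (by rw [x.2, h])
    have h2 : x.1 ∩ y.1 = y.1 := Finset.eq_of_subset_of_card_le Finset.inter_subset_right (by rw [y.2, h])
    exact Subtype.ext (h1.symm.trans h2)
  · rintro rfl; rw [Finset.inter_self, x.2]

theorem inter_card_zero_iff (x y : KSub (2 * k) k) : (x.1 ∩ y.1).card = 0 ↔ cpl x = y := by
  rw [cpl_eq_iff, ← inter_card_eq_iff x (cpl y), inter_cpl_card]
  have := inter_card_le x y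
  omega

/-- the sign `(-1)^|x ∩ y|` -/
noncomputable def sg (x y : KSub (2 * k) k) : ℝ := (-1) ^ (x.1 ∩ y.1).card

theorem sg_comm (x y : KSub (2 * k) k) : sg x y = sg y x := by
  rw [sg, sg, Finset.inter_comm]

theorem sg_mul_self (x y : KSub (2 * k) k) : sg x y * sg x y = 1 := by
  rw [sg, ← pow_add, ← two_mul, pow_mul]; simp

theorem sg_or (x y : KSub (2 * k) k) : sg x y = 1 ∨ sg x y = -1 := by
  rw [sg]; exact neg_one_pow_eq_or ℝ _

theorem sg_cpl (x y : KSub (2 * k) k) : sg x (cpl y) = (-1) ^ k * sg x y := by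
  rw [sg, sg, inter_cpl_card, ← pow_add]
  have := inter_card_le x y
  obtain ⟨m, hm⟩ := Nat.exists_eq_add_of_le this
  have e1 : k - (x.1 ∩ y.1).card = m := by omega
  have e2 : k + (x.1 ∩ y.1).card = m + 2 * (x.1 ∩ y.1).card := by omega
  rw [e1, e2, pow_add, pow_mul]; simp

/-- `1` if `k` is even, else `0` -/
noncomputable def ev (k : ℕ) : ℝ := if Even k then 1 else 0

theorem ev_eq (k : ℕ) : ev k = (1 + (-1) ^ k) / 2 := by
  unfold ev
  split_ifs with h
  · rw [h.neg_one_pow]; norm_num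
  · rw [(Nat.not_even_iff_odd.mp h).neg_one_pow]; norm_num

/-- adjacency matrix of `J_{2,4,...}(2k,k)` -/
noncomputable def adjJ (k : ℕ) : Matrix (KSub (2 * k) k) (KSub (2 * k) k) ℝ :=
  fun x y => (1 + sg x y) / 2 - ev k * (if x = y then 1 else 0) - (if cpl x = y then 1 else 0)

theorem cpl_ne (hk : 1 ≤ k) (x : KSub (2 * k) k) : cpl x ≠ x := by
  intro h
  rw [← inter_card_zero_iff, Finset.inter_self, x.2] at h
  omega

open Classical in
theorem adjJ_eq (hk : 1 ≤ k) :
    (genJohnson (evenSet k) (2 * k) k).adjMatrix ℝ = adjJ k := by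
  ext x y
  rw [SimpleGraph.adjMatrix_apply]
  by_cases hxy : x = y
  · subst hxy
    have h1 : ¬ (genJohnson (evenSet k) (2 * k) k).Adj x x := SimpleGraph.irrefl _
    rw [if_neg h1]
    have : cpl x ≠ x := cpl_ne hk x
    simp only [adjJ, if_true, if_neg this, ev_eq, sg, Finset.inter_self, x.2]
    ring
  · by_cases hc : cpl x = y
    · subst hc
      have h0 : (x.1 ∩ (cpl x).1).card = 0 := (inter_card_zero_iff x _).mpr rfl
      have h1 : ¬ (genJohnson (evenSet k) (2 * k) k).Adj x (cpl x) := by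
        rintro ⟨_, h, _⟩
        rw [h0] at h; omega
      rw [if_neg h1]
      simp only [adjJ, if_neg hxy, if_true, sg, h0]
      norm_num
    · have h1 : (x.1 ∩ y.1).card ≠ 0 := fun h => hc ((inter_card_zero_iff x y).mp h)
      have h2 : (x.1 ∩ y.1).card ≠ k := fun h => hxy ((inter_card_eq_iff x y).mp h)
      have h3 := inter_card_le x y
      simp only [adjJ, if_neg hxy, if_neg hc, sg]
      by_cases he : Even (x.1 ∩ y.1).card
      · have : (genJohnson (evenSet k) (2 * k) k).Adj x y := by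
          refine ⟨hxy, ?_, ?_, he⟩
          · obtain ⟨r, hr⟩ := he; omega
          · omega
        rw [if_pos this, he.neg_one_pow]; norm_num
      · have : ¬ (genJohnson (evenSet k) (2 * k) k).Adj x y := by
          rintro ⟨_, _, _, h⟩; exact he h
        rw [if_neg this, (Nat.not_even_iff_odd.mp he).neg_one_pow]; norm_num

theorem sg_mul_sg (x y z : KSub (2 * k) k) :
    sg x z * sg z y = (-1) ^ (z.1 ∩ (symmDiff x.1 y.1)).card := by
  rw [sg, sg, ← pow_add, Finset.inter_comm x.1 z.1]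
  have h1 : (z.1 ∩ symmDiff x.1 y.1).card + 2 * (z.1 ∩ x.1 ∩ y.1).card
      = (z.1 ∩ x.1).card + (z.1 ∩ y.1).card := by
    have e1 : (z.1 ∩ symmDiff x.1 y.1) = symmDiff (z.1 ∩ x.1) (z.1 ∩ y.1) := by
      ext i; simp only [mem_inter, mem_symmDiff]; tauto
    have e2 : (z.1 ∩ x.1 ∩ y.1) = (z.1 ∩ x.1) ∩ (z.1 ∩ y.1) := by
      ext i; simp only [mem_inter]; tauto
    rw [e1, e2]
    generalize z.1 ∩ x.1 = a
    generalize z.1 ∩ y.1 = b
    have h1 : (symmDiff a b).card = (a \ b).card + (b \ a).card := by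
      rw [symmDiff, Finset.sup_eq_union, Finset.card_union_of_disjoint]
      exact disjoint_sdiff_sdiff
    have h2 := Finset.card_sdiff_add_card_inter a b
    have h3 := Finset.card_sdiff_add_card_inter b a
    rw [Finset.inter_comm b a] at h3
    omega
  rw [← h1, pow_add, pow_mul]; simp

theorem symmDiff_card (x y : KSub (2 * k) k) :
    (symmDiff x.1 y.1).card = 2 * (k - (x.1 ∩ y.1).card) := by
  have h1 : (symmDiff x.1 y.1).card = (x.1 \ y.1).card + (y.1 \ x.1).card := by
    rw [symmDiff, Finset.sup_eq_union, Finset.card_union_of_disjoint]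
    exact disjoint_sdiff_sdiff
  have h2 := Finset.card_sdiff_add_card_inter x.1 y.1
  have h3 := Finset.card_sdiff_add_card_inter y.1 x.1
  rw [Finset.inter_comm y.1 x.1, y.2] at h3
  rw [x.2] at h2
  omega

theorem sum_sg_sg (x y : KSub (2 * k) k) :
    ∑ z, sg x z * sg z y = (kt k (k - (x.1 ∩ y.1).card) : ℤ) := by
  have h := sum_powersetCard_neg_one (symmDiff x.1 y.1) k
  rw [symmDiff_card, Fintype.card_fin] at h
  have e : 2 * k - 2 * (k - (x.1 ∩ y.1).card) = 2 * (k - (k - (x.1 ∩ y.1).card)) := by omega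
  rw [e] at h
  rw [kt, ← h]
  push_cast
  rw [Finset.sum_subtype ((univ : Finset (Fin (2 * k))).powersetCard k) (p := fun A => A.card = k)]
  · exact Finset.sum_congr rfl fun z _ => sg_mul_sg x y z
  · intro z; simp [mem_powersetCard]

/-- row sum of the sign matrix -/
noncomputable def rs (x : KSub (2 * k) k) : ℝ := ∑ z, sg x z

theorem card_KSub : (Fintype.card (KSub (2 * k) k) : ℝ) = Nat.centralBinom k := by
  have : Fintype.card (KSub (2 * k) k) = Nat.centralBinom k := by
    rw [Fintype.card_finset_len, Fintype.card_fin]; rfl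
  rw [this]

/-- number of common neighbours, multiplied by four -/
theorem four_adjJ_sq (x y : KSub (2 * k) k) :
    4 * (adjJ k * adjJ k) x y = Nat.centralBinom k + rs x + rs y
      + (kt k (k - (x.1 ∩ y.1).card) : ℤ)
      - 4 * ev k * (1 + sg x y) - 2 * (1 + sg (cpl x) y) - 2 * (1 + sg x (cpl y))
      + 4 * (ev k * ev k + 1) * (if x = y then 1 else 0) + 8 * ev k * (if cpl x = y then 1 else 0) := by
  rw [Matrix.mul_apply]
  have h1 : ∀ z, adjJ k x z * adjJ k z y = (1 + sg x z + sg z y + sg x z * sg z y) / 4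
      - (if x = z then ev k * adjJ k z y else 0) - (if cpl x = z then adjJ k z y else 0)
      - (if z = y then ev k * ((1 + sg x z) / 2) else 0)
      - (if z = cpl y then (1 + sg x z) / 2 else 0) := by
    intro z
    have e1 : adjJ k x z = (1 + sg x z) / 2 - (if x = z then ev k else 0) - (if cpl x = z then 1 else 0) := by
      rw [adjJ]; split_ifs <;> ring
    have e2 : adjJ k z y = (1 + sg z y) / 2 - (if z = y then ev k else 0) - (if z = cpl y then 1 else 0) := by
      rw [adjJ]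
      have : (cpl z = y) = (z = cpl y) := by rw [cpl_eq_iff]
      simp only [this]
      split_ifs <;> ring
    have e3 : adjJ k x z * adjJ k z y = (1 + sg x z) / 2 * adjJ k z y
      - (if x = z then ev k * adjJ k z y else 0) - (if cpl x = z then adjJ k z y else 0) := by
      rw [e1]; split_ifs <;> ring
    rw [e3]
    have e4 : (1 + sg x z) / 2 * adjJ k z y = (1 + sg x z + sg z y + sg x z * sg z y) / 4
      - (if z = y then ev k * ((1 + sg x z) / 2) else 0)
      - (if z = cpl y then (1 + sg x z) / 2 else 0) := by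
      rw [e2]; split_ifs <;> ring
    rw [e4]; ring
  rw [Finset.sum_congr rfl (fun z _ => h1 z)]
  simp only [Finset.sum_sub_distrib, Finset.sum_ite_eq, Finset.sum_ite_eq', mem_univ, if_true]
  rw [← Finset.sum_div]
  simp only [Finset.sum_add_distrib]
  rw [sum_sg_sg]
  have e5 : ∑ z : KSub (2 * k) k, sg z y = rs y := by
    rw [rs]; exact Finset.sum_congr rfl fun z _ => sg_comm z y
  rw [e5]
  change 4 * ((∑ i : KSub (2 * k) k, (1:ℝ) + rs x + rs y + _) / 4 - _ - _ - _ - _) = _
  rw [Finset.sum_const, Finset.card_univ, nsmul_eq_mul, card_KSub, mul_one]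
  have e6 : cpl (cpl x) = x := cpl_cpl x
  simp only [adjJ, e6]
  have e7 : (cpl x = y) = (x = cpl y) := by rw [cpl_eq_iff]
  simp only [e7]
  split_ifs <;> ring

theorem rs_eq (x : KSub (2 * k) k) : rs x = ((kpoly k k).coeff k : ℤ) := by
  have h := sum_powersetCard_neg_one x.1 k
  rw [x.2, Fintype.card_fin] at h
  have e : 2 * k - k = k := by omega
  rw [e] at h
  rw [← h, rs]
  push_cast
  rw [Finset.sum_subtype ((univ : Finset (Fin (2 * k))).powersetCard k) (p := fun A => A.card = k)]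
  · exact Finset.sum_congr rfl fun z _ => by rw [sg, Finset.inter_comm]
  · intro z; simp [mem_powersetCard]

/-- A switching configuration -/
structure Conf (k : ℕ) where
  a : Fin 4 → KSub (2 * k) k
  inter : ∀ i j, i ≠ j → ((a i).1 ∩ (a j).1).card = k - 2
  par : ∀ x : KSub (2 * k) k, Even (∑ i, (x.1 ∩ (a i).1).card)

namespace Conf

variable (F : Conf k)

theorem inj (hk : 3 ≤ k) : Function.Injective F.a := by
  intro i j hij
  by_contra hne
  have h := F.inter i j hne
  rw [hij, Finset.inter_self, (F.a j).2] at h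
  omega

theorem cpl_ne (hk : 3 ≤ k) (i j : Fin 4) : cpl (F.a i) ≠ F.a j := by
  intro h
  rw [← inter_card_zero_iff] at h
  by_cases hij : i = j
  · subst hij; rw [Finset.inter_self, (F.a i).2] at h; omega
  · rw [F.inter i j hij] at h; omega

open Classical in
/-- the cells -/
noncomputable def c (x : KSub (2 * k) k) : Option (Fin 2) :=
  if x ∈ Set.range F.a then some 0 else if cpl x ∈ Set.range F.a then some 1 else none

theorem c_a (i : Fin 4) : F.c (F.a i) = some 0 := by
  rw [c, if_pos ⟨i, rfl⟩]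

theorem c_cpl_a (hk : 3 ≤ k) (i : Fin 4) : F.c (cpl (F.a i)) = some 1 := by
  rw [c, if_neg, if_pos]
  · rw [cpl_cpl]; exact ⟨i, rfl⟩
  · rintro ⟨j, hj⟩; exact F.cpl_ne hk i j hj.symm

theorem c_eq_zero_iff (x : KSub (2 * k) k) : F.c x = some 0 ↔ ∃ i, F.a i = x := by
  constructor
  · intro h
    by_contra h'
    have : x ∉ Set.range F.a := h'
    rw [c, if_neg this] at h
    split_ifs at h
    · simp at h
  · rintro ⟨i, rfl⟩; exact F.c_a i

theorem c_eq_one_iff (hk : 3 ≤ k) (x : KSub (2 * k) k) : F.c x = some 1 ↔ ∃ i, cpl (F.a i) = x := by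
  constructor
  · intro h
    rw [c] at h
    split_ifs at h with h1 h2
    · simp at h
    · obtain ⟨i, hi⟩ := h2
      exact ⟨i, by rw [hi, cpl_cpl]⟩
  · rintro ⟨i, rfl⟩; exact F.c_cpl_a hk i

theorem c_eq_none (x : KSub (2 * k) k) (h : F.c x = none) :
    (∀ i, x ≠ F.a i) ∧ (∀ i, cpl x ≠ F.a i) := by
  rw [c] at h
  split_ifs at h with h1 h2
  · exact ⟨fun i e => h1 ⟨i, e.symm⟩, fun i e => h2 ⟨i, e.symm⟩⟩

theorem cpl_inj : Function.Injective (cpl (k := k)) := by
  intro x y h
  rw [← cpl_cpl x, h, cpl_cpl]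

theorem filter_zero : (univ.filter (fun z => F.c z = some 0)) = univ.image F.a := by
  ext z; simp [c_eq_zero_iff]

theorem filter_one (hk : 3 ≤ k) :
    (univ.filter (fun z => F.c z = some 1)) = univ.image (fun i => cpl (F.a i)) := by
  ext z; simp [F.c_eq_one_iff hk]

theorem sum_zero (hk : 3 ≤ k) (f : KSub (2 * k) k → ℝ) :
    ∑ z ∈ univ.filter (fun z => F.c z = some 0), f z = ∑ i, f (F.a i) := by
  rw [F.filter_zero, Finset.sum_image]
  intro i _ j _ h; exact F.inj hk h

theorem sum_one (hk : 3 ≤ k) (f : KSub (2 * k) k → ℝ) :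
    ∑ z ∈ univ.filter (fun z => F.c z = some 1), f z = ∑ i, f (cpl (F.a i)) := by
  rw [F.filter_one hk, Finset.sum_image]
  intro i _ j _ h; exact F.inj hk (cpl_inj h)

theorem cellsFour (hk : 3 ≤ k) : CellsFour F.c := by
  intro x i _
  fin_cases i
  · change (univ.filter (fun z => F.c z = some 0)).card = 4
    rw [F.filter_zero, Finset.card_image_of_injective _ (F.inj hk)]; simp
  · change (univ.filter (fun z => F.c z = some 1)).card = 4
    rw [F.filter_one hk, Finset.card_image_of_injective]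
    · simp
    · intro i j h; exact F.inj hk (cpl_inj h)

theorem sg_prod (x : KSub (2 * k) k) : sg x (F.a 0) * sg x (F.a 1) * sg x (F.a 2) * sg x (F.a 3) = 1 := by
  have h := F.par x
  simp only [Fin.sum_univ_four] at h
  simp only [sg]
  rw [← pow_add, ← pow_add, ← pow_add]
  exact h.neg_one_pow

/-- four signs with product one -/
theorem four_signs (a b c d : ℝ) (ha : a = 1 ∨ a = -1) (hb : b = 1 ∨ b = -1) (hc : c = 1 ∨ c = -1)
    (hd : d = 1 ∨ d = -1) (h : a * b * c * d = 1) :
    (1 + a) / 2 + (1 + b) / 2 + (1 + c) / 2 + (1 + d) / 2 = 0 ∨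
    (1 + a) / 2 + (1 + b) / 2 + (1 + c) / 2 + (1 + d) / 2 = 2 ∨
    (1 + a) / 2 + (1 + b) / 2 + (1 + c) / 2 + (1 + d) / 2 = 4 := by
  rcases ha with rfl | rfl <;> rcases hb with rfl | rfl <;> rcases hc with rfl | rfl <;>
    rcases hd with rfl | rfl <;> first | (exfalso; norm_num at h; done) | norm_num

theorem h1 (hk : 3 ≤ k) (x : KSub (2 * k) k) (i : Fin 2) (hx : F.c x = none) :
    ∑ z ∈ univ.filter (fun z => F.c z = some i), adjJ k x z = 0 ∨
    ∑ z ∈ univ.filter (fun z => F.c z = some i), adjJ k x z = 2 ∨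
    ∑ z ∈ univ.filter (fun z => F.c z = some i), adjJ k x z = 4 := by
  obtain ⟨n1, n2⟩ := F.c_eq_none x hx
  have p := F.sg_prod x
  have n3 : ∀ i, x ≠ cpl (F.a i) := fun i e => n2 i (by rw [e, cpl_cpl])
  have n4 : ∀ i, cpl x ≠ cpl (F.a i) := fun i e => n1 i (cpl_inj e)
  fin_cases i
  · change ∑ z ∈ univ.filter (fun z => F.c z = some 0), adjJ k x z = 0 ∨
      ∑ z ∈ univ.filter (fun z => F.c z = some 0), adjJ k x z = 2 ∨
      ∑ z ∈ univ.filter (fun z => F.c z = some 0), adjJ k x z = 4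
    rw [F.sum_zero hk, Fin.sum_univ_four]
    simp only [adjJ, if_neg (n1 _), if_neg (n2 _), mul_zero, sub_zero]
    exact four_signs _ _ _ _ (sg_or _ _) (sg_or _ _) (sg_or _ _) (sg_or _ _) p
  · change ∑ z ∈ univ.filter (fun z => F.c z = some 1), adjJ k x z = 0 ∨
      ∑ z ∈ univ.filter (fun z => F.c z = some 1), adjJ k x z = 2 ∨
      ∑ z ∈ univ.filter (fun z => F.c z = some 1), adjJ k x z = 4
    rw [F.sum_one hk, Fin.sum_univ_four]
    simp only [adjJ, if_neg (n3 _), if_neg (n4 _), mul_zero, sub_zero]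
    refine four_signs _ _ _ _ (sg_or _ _) (sg_or _ _) (sg_or _ _) (sg_or _ _) ?_
    simp only [sg_cpl]
    have e : ((-1 : ℝ) ^ k) ^ 4 = 1 := by rw [← pow_mul, mul_comm, pow_mul]; norm_num
    calc _ = ((-1 : ℝ) ^ k) ^ 4 * (sg x (F.a 0) * sg x (F.a 1) * sg x (F.a 2) * sg x (F.a 3)) := by ring
      _ = 1 := by rw [e, p, one_mul]

theorem sg_aa (hk : 3 ≤ k) (i j : Fin 4) : sg (F.a i) (F.a j) = (-1) ^ k := by
  rw [sg]
  by_cases h : i = j
  · subst h; rw [Finset.inter_self, (F.a i).2]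
  · rw [F.inter i j h]
    obtain ⟨m, rfl⟩ : ∃ m, k = m + 2 := ⟨k - 2, by omega⟩
    rw [Nat.add_sub_cancel, pow_add]; norm_num

theorem adj_aa (hk : 3 ≤ k) (i j : Fin 4) :
    adjJ k (F.a i) (F.a j) = if i = j then 0 else ev k := by
  have e : (F.a i = F.a j) = (i = j) := by
    rw [(F.inj hk).eq_iff]
  simp only [adjJ, F.sg_aa hk, if_neg (F.cpl_ne hk i j), e, ev_eq]
  split_ifs <;> ring

theorem adj_aac (hk : 3 ≤ k) (i j : Fin 4) :
    adjJ k (F.a i) (cpl (F.a j)) = if i = j then 0 else 1 := by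
  have e : (cpl (F.a i) = cpl (F.a j)) = (i = j) := by
    rw [cpl_inj.eq_iff, (F.inj hk).eq_iff]
  have e2 : F.a i ≠ cpl (F.a j) := fun h => F.cpl_ne hk j i h.symm
  have e3 : ((-1 : ℝ) ^ k) * (-1) ^ k = 1 := by rw [← pow_add, ← two_mul, pow_mul]; norm_num
  simp only [adjJ, sg_cpl, F.sg_aa hk, if_neg e2, e, e3]
  split_ifs <;> ring

theorem adjJ_symm (x y : KSub (2 * k) k) : adjJ k x y = adjJ k y x := by
  have e1 : (x = y) = (y = x) := propext eq_comm
  have e2 : (cpl x = y) = (cpl y = x) := by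
    rw [cpl_eq_iff]; exact propext eq_comm
  simp only [adjJ, sg_comm x y, e1, e2]

theorem adjJ_cpl_cpl (x y : KSub (2 * k) k) : adjJ k (cpl x) (cpl y) = adjJ k x y := by
  have e1 : (cpl x = cpl y) = (x = y) := by rw [cpl_inj.eq_iff]
  have e2 : (cpl (cpl x) = cpl y) = (cpl x = y) := by rw [cpl_cpl, cpl_eq_iff]
  have e3 : sg (cpl x) (cpl y) = sg x y := by
    rw [sg_cpl, sg_comm (cpl x) y, sg_cpl, ← mul_assoc, ← pow_add, ← two_mul, pow_mul, sg_comm y x]
    norm_num
  simp only [adjJ, e1, e2, e3]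

/-- quotient matrix -/
noncomputable def d (k : ℕ) (i j : Fin 2) : ℝ := if i = j then 3 * ev k else 3

theorem h2 (hk : 3 ≤ k) (x : KSub (2 * k) k) (i j : Fin 2) (hx : F.c x = some i) :
    ∑ z ∈ univ.filter (fun z => F.c z = some j), adjJ k x z = d k i j := by
  have key : ∀ l, ∀ j : Fin 2, ∑ z ∈ univ.filter (fun z => F.c z = some j), adjJ k (F.a l) z = d k 0 j := by
    intro l j
    fin_cases j
    · change ∑ z ∈ univ.filter (fun z => F.c z = some 0), adjJ k (F.a l) z = d k 0 0
      rw [F.sum_zero hk, Fin.sum_univ_four]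
      simp only [F.adj_aa hk, d, if_true]
      fin_cases l <;> simp <;> ring
    · change ∑ z ∈ univ.filter (fun z => F.c z = some 1), adjJ k (F.a l) z = d k 0 1
      rw [F.sum_one hk, Fin.sum_univ_four]
      simp only [F.adj_aac hk, d]
      fin_cases l <;> simp <;> norm_num
  have key2 : ∀ l, ∀ j : Fin 2, ∑ z ∈ univ.filter (fun z => F.c z = some j), adjJ k (cpl (F.a l)) z = d k 1 j := by
    intro l j
    fin_cases j
    · change ∑ z ∈ univ.filter (fun z => F.c z = some 0), adjJ k (cpl (F.a l)) z = d k 1 0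
      rw [F.sum_zero hk, Fin.sum_univ_four]
      simp only [adjJ_symm (cpl (F.a l)), F.adj_aac hk, d]
      fin_cases l <;> simp <;> norm_num
    · change ∑ z ∈ univ.filter (fun z => F.c z = some 1), adjJ k (cpl (F.a l)) z = d k 1 1
      rw [F.sum_one hk, Fin.sum_univ_four]
      simp only [adjJ_cpl_cpl, F.adj_aa hk, d, if_true]
      fin_cases l <;> simp <;> ring
  fin_cases i
  · obtain ⟨l, rfl⟩ := (F.c_eq_zero_iff x).mp hx
    exact key l j
  · obtain ⟨l, rfl⟩ := (F.c_eq_one_iff hk x).mp hx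
    exact key2 l j

theorem d_symm (i j : Fin 2) : d k i j = d k j i := by
  simp only [d, eq_comm]

theorem isAdj (hk : 3 ≤ k) : (gmB F.c (adjJ k)).IsAdjMatrix := by
  have hA : (adjJ k).IsAdjMatrix := by
    classical
    rw [← adjJ_eq (by omega : 1 ≤ k)]
    exact SimpleGraph.isAdjMatrix_adjMatrix ℝ _
  exact gmB_isAdj F.c (adjJ k) hA (F.cellsFour hk) (fun x i hx => F.h1 hk x i hx) (d k) d_symm
    (fun x i j hx => F.h2 hk x i j hx)

/-- the mate -/
noncomputable def mate (hk : 3 ≤ k) : SimpleGraph (KSub (2 * k) k) := (F.isAdj hk).toGraph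

open Classical in
theorem mate_adjMatrix (hk : 3 ≤ k) : (F.mate hk).adjMatrix ℝ = gmB F.c (adjJ k) := by
  ext x y
  rw [SimpleGraph.adjMatrix_apply]
  by_cases h : gmB F.c (adjJ k) x y = 1
  · have h2 : (F.mate hk).Adj x y := h
    rw [if_pos h2, h]
  · have h2 : ¬ (F.mate hk).Adj x y := h
    rw [if_neg h2]
    rcases (F.isAdj hk).zero_or_one x y with h' | h'
    · rw [h']
    · exact absurd h' h

open Classical in
theorem mate_charpoly (hk : 3 ≤ k) :
    ((F.mate hk).adjMatrix ℝ).charpoly = ((genJohnson (evenSet k) (2 * k) k).adjMatrix ℝ).charpoly := by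
  rw [F.mate_adjMatrix hk, adjJ_eq (by omega), gmB_charpoly _ _ (F.cellsFour hk)]

end Conf

end

end Pool.Agent.Helper64
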