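import Mathlib
import Pool.Agent.Helper64.JohnsonEven

namespace Pool.Agent.Helper64

open Finset Matrix

variable {k : ℕ}

theorem neg_one_pow_mul_self (k : ℕ) : ((-1 : ℝ) ^ k) * (-1) ^ k = 1 := by
  rw [← pow_add, ← two_mul, pow_mul]; norm_num

/-- number of common neighbours (times four) of two vertices, not complementary and not equal -/
theorem four_sq_generic (x y : KSub (2 * k) k) (hxy : x ≠ y) (hc : cpl x ≠ y) (s : ℕ)
    (hs : (x.1 ∩ y.1).card + s = k) :
    4 * (adjJ k * adjJ k) x y = Nat.centralBinom k + 2 * ((kpoly k k).coeff k : ℤ)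
      + (-1) ^ s * (ku k s : ℝ) - 4 * ev k * (1 + (-1) ^ k * (-1) ^ s) - 4 * (1 + (-1) ^ s) := by
  rw [four_adjJ_sq, if_neg hxy, if_neg hc, rs_eq, rs_eq]
  have e1 : k - (x.1 ∩ y.1).card = s := by omega
  rw [e1, kt_eq_ku]
  have e2 : sg x y = (-1) ^ k * (-1) ^ s := by
    rw [sg, ← pow_add]
    have : k + s = (x.1 ∩ y.1).card + 2 * s := by omega
    rw [this, pow_add, pow_mul]; norm_num
  have e3 : sg x (cpl y) = (-1) ^ s := by
    rw [sg_cpl, e2, ← mul_assoc, neg_one_pow_mul_self, one_mul]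
  have e4 : sg (cpl x) y = (-1) ^ s := by
    rw [sg_comm, sg_cpl, sg_comm, e2, ← mul_assoc, neg_one_pow_mul_self, one_mul]
  rw [e2, e3, e4]
  push_cast
  ring

theorem four_sq_cpl (x : KSub (2 * k) k) (hk : 1 ≤ k) :
    4 * (adjJ k * adjJ k) x (cpl x) = Nat.centralBinom k + 2 * ((kpoly k k).coeff k : ℤ)
      + (-1) ^ k * (Nat.centralBinom k : ℝ) - 8 * ev k := by
  have hne : x ≠ cpl x := fun h => cpl_ne hk x h.symm
  rw [four_adjJ_sq, if_neg hne, if_pos rfl, rs_eq, rs_eq]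
  have h0 : (x.1 ∩ (cpl x).1).card = 0 := (inter_card_zero_iff x _).mpr rfl
  have e2 : sg x (cpl x) = 1 := by rw [sg, h0, pow_zero]
  have e3 : sg x (cpl (cpl x)) = (-1) ^ k := by
    rw [sg_cpl, e2, mul_one]
  have e4 : sg (cpl x) (cpl x) = (-1) ^ k := by
    rw [sg, Finset.inter_self, (cpl x).2]
  rw [h0, Nat.sub_zero, kt_self, e2, e3, e4, ev_eq]
  push_cast
  ring

/-- The value of `4 A²` at every pair of distinct vertices avoids the critical value. -/
theorem four_sq_ne (hk : 5 ≤ k) (x y : KSub (2 * k) k) (hxy : x ≠ y) :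
    4 * (adjJ k * adjJ k) x y ≠ Nat.centralBinom k + 2 * ((kpoly k k).coeff k : ℤ)
      - (3 * (ku k 1 : ℝ) - (ku k 3 : ℝ)) / 2 := by
  have h28 : (28 : ℝ) ≤ ku k 1 := by exact_mod_cast ku_one_ge k hk
  have h31 : (ku k 3 : ℝ) < ku k 1 := by exact_mod_cast ku_three_lt k hk
  have h30 : (0 : ℝ) < ku k 3 := by exact_mod_cast ku_pos k 3 (by omega)
  have hcb : (Nat.centralBinom k : ℝ) = (2 * (k : ℝ) - 1) * ku k 1 := by
    exact_mod_cast centralBinom_eq k (by omega)
  have hk' : (5 : ℝ) ≤ k := by exact_mod_cast hk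
  have hcb9 : 9 * (ku k 1 : ℝ) ≤ Nat.centralBinom k := by
    rw [hcb]; nlinarith
  by_cases hc : cpl x = y
  · subst hc
    rw [four_sq_cpl x (by omega)]
    intro h
    rcases Nat.even_or_odd k with he | ho
    · rw [he.neg_one_pow, ev, if_pos he] at h
      linarith
    · rw [ho.neg_one_pow, ev, if_neg (Nat.not_even_iff_odd.mpr ho)] at h
      linarith
  · have hne0 : (x.1 ∩ y.1).card ≠ 0 := fun h => hc ((inter_card_zero_iff x y).mp h)
    have hnek : (x.1 ∩ y.1).card ≠ k := fun h => hxy ((inter_card_eq_iff x y).mp h)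
    have hle := inter_card_le x y
    obtain ⟨s, hs⟩ : ∃ s, (x.1 ∩ y.1).card + s = k := ⟨k - (x.1 ∩ y.1).card, by omega⟩
    rw [four_sq_generic x y hxy hc s hs]
    have hs1 : (ku k s : ℝ) ≤ ku k 1 := by exact_mod_cast ku_le_one k s (by omega) (by omega)
    have hs0 : (0 : ℝ) < ku k s := by exact_mod_cast ku_pos k s (by omega)
    intro h
    rcases Nat.even_or_odd s with he | ho
    · rw [he.neg_one_pow, ev] at h
      split_ifs at h with hke
      · rw [hke.neg_one_pow] at h; linarith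
      · linarith
    · rw [ho.neg_one_pow, ev] at h
      split_ifs at h with hke
      · rw [hke.neg_one_pow] at h; linarith
      · linarith

namespace Conf

variable (F : Conf k)

theorem four_sq_mate (hk : 5 ≤ k) (x0 : KSub (2 * k) k)
    (h1 : ∀ i : Fin 4, i ≠ 3 → (x0.1 ∩ (F.a i).1).card = k - 1)
    (h3 : (x0.1 ∩ (F.a 3).1).card = k - 3) :
    4 * (gmB F.c (adjJ k) * gmB F.c (adjJ k)) x0 (F.a 3)
      = Nat.centralBinom k + 2 * ((kpoly k k).coeff k : ℤ)
      - (3 * (ku k 1 : ℝ) - (ku k 3 : ℝ)) / 2 := by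
  have hk3 : 3 ≤ k := by omega
  have hn1 : ∀ i, x0 ≠ F.a i := by
    intro i h
    rw [← inter_card_eq_iff] at h
    by_cases hi : i = 3
    · subst hi; omega
    · rw [h1 i hi] at h; omega
  have hn2 : ∀ i, Pool.Agent.Helper64.cpl x0 ≠ F.a i := by
    intro i h
    rw [← inter_card_zero_iff] at h
    by_cases hi : i = 3
    · subst hi; omega
    · rw [h1 i hi] at h; omega
  have hc0 : F.c x0 = none := by
    rw [c, if_neg, if_neg]
    · rintro ⟨i, hi⟩; exact hn2 i hi.symm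
    · rintro ⟨i, hi⟩; exact hn1 i hi.symm
  rw [gmB_mul _ _ _ (F.cellsFour hk3), gmB_none_some _ _ _ _ hc0 0 (F.c_a 3), F.sum_zero hk3,
    Fin.sum_univ_four]
  have e1 : ∀ i : Fin 4, i ≠ 3 → 4 * (adjJ k * adjJ k) x0 (F.a i)
      = Nat.centralBinom k + 2 * ((kpoly k k).coeff k : ℤ) - (ku k 1 : ℝ) := by
    intro i hi
    rw [four_sq_generic x0 (F.a i) (hn1 i) (hn2 i) 1 (by rw [h1 i hi]; omega), ev_eq]
    have := neg_one_pow_mul_self k
    linear_combination (2 : ℝ) * this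
  have e3 : 4 * (adjJ k * adjJ k) x0 (F.a 3)
      = Nat.centralBinom k + 2 * ((kpoly k k).coeff k : ℤ) - (ku k 3 : ℝ) := by
    rw [four_sq_generic x0 (F.a 3) (hn1 3) (hn2 3) 3 (by rw [h3]; omega), ev_eq]
    have := neg_one_pow_mul_self k
    linear_combination (2 : ℝ) * this
  have f0 := e1 0 (by decide)
  have f1 := e1 1 (by decide)
  have f2 := e1 2 (by decide)
  linarith

open Classical in
theorem iso_sq {V W : Type*} [Fintype V] [Fintype W] (G : SimpleGraph V) (H : SimpleGraph W)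
    (φ : G ≃g H) (x y : V) :
    (H.adjMatrix ℝ * H.adjMatrix ℝ) (φ x) (φ y) = (G.adjMatrix ℝ * G.adjMatrix ℝ) x y := by
  rw [Matrix.mul_apply, Matrix.mul_apply]
  symm
  refine Fintype.sum_equiv φ.toEquiv _ _ fun z => ?_
  have a1 : H.Adj (φ z) (φ y) ↔ G.Adj z y := φ.map_adj_iff
  have a2 : H.Adj (φ x) (φ z) ↔ G.Adj x z := φ.map_adj_iff
  simp [SimpleGraph.adjMatrix_apply, a1, a2]

theorem not_iso (hk : 5 ≤ k) (x0 : KSub (2 * k) k)
    (h1 : ∀ i : Fin 4, i ≠ 3 → (x0.1 ∩ (F.a i).1).card = k - 1)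
    (h3 : (x0.1 ∩ (F.a 3).1).card = k - 3) :
    IsEmpty (genJohnson (evenSet k) (2 * k) k ≃g F.mate (by omega)) := by
  classical
  refine ⟨fun φ => ?_⟩
  have h := iso_sq _ _ φ (φ.symm x0) (φ.symm (F.a 3))
  rw [RelIso.apply_symm_apply, RelIso.apply_symm_apply, F.mate_adjMatrix, adjJ_eq (by omega)] at h
  have hne : φ.symm x0 ≠ φ.symm (F.a 3) := by
    intro e
    have e' := φ.symm.injective e
    rw [← inter_card_eq_iff, h3] at e'
    omega
  apply four_sq_ne hk _ _ hne
  rw [← h]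
  exact F.four_sq_mate hk x0 h1 h3

end Conf

/-- the four stars of `K_4`, on its six edges -/
def star4 : Fin 4 → Finset (Fin 6) := ![{0, 1, 2}, {0, 3, 4}, {1, 3, 5}, {2, 4, 5}]

theorem star4_card (i : Fin 4) : (star4 i).card = 3 := by
  fin_cases i <;> decide

theorem star4_inter (i j : Fin 4) (h : i ≠ j) : (star4 i ∩ star4 j).card = 1 := by
  revert i j; decide

section

variable (ι : Fin 6 ↪ Fin (2 * k)) (B : Finset (Fin (2 * k)))

theorem union_inter_card (hB : ∀ e, ι e ∉ B) (S T : Finset (Fin 6)) :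
    ((B ∪ S.map ι) ∩ (B ∪ T.map ι)).card = B.card + (S ∩ T).card := by
  have h1 : (B ∪ S.map ι) ∩ (B ∪ T.map ι) = B ∪ (S ∩ T).map ι := by
    rw [← Finset.union_inter_distrib_left, Finset.map_inter]
  rw [h1, Finset.card_union_of_disjoint, Finset.card_map]
  rw [Finset.disjoint_left]
  intro a ha hm
  rw [Finset.mem_map] at hm
  obtain ⟨e, _, rfl⟩ := hm
  exact hB e ha

theorem inter_map_card (x : Finset (Fin (2 * k))) (S : Finset (Fin 6)) :
    (x ∩ S.map ι).card = ∑ e ∈ S, (if ι e ∈ x then 1 else 0) := by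
  have : x ∩ S.map ι = (S.filter (fun e => ι e ∈ x)).map ι := by
    ext a
    simp only [mem_inter, mem_map, mem_filter]
    constructor
    · rintro ⟨h1, e, h2, rfl⟩; exact ⟨e, ⟨h2, h1⟩, rfl⟩
    · rintro ⟨e, ⟨h2, h1⟩, rfl⟩; exact ⟨h1, e, h2, rfl⟩
  rw [this, Finset.card_map, Finset.card_filter]

/-- the vertex `B ∪ ι(S)` -/
def vtx (hB : ∀ e, ι e ∉ B) (hBc : B.card + 3 = k) (S : Finset (Fin 6)) (hS : S.card = 3) :
    KSub (2 * k) k :=
  ⟨B ∪ S.map ι, by
    have := union_inter_card ι B hB S S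
    rw [Finset.inter_self, Finset.inter_self] at this
    rw [this, hS, hBc]⟩

/-- The switching configuration given by the four stars. -/
def starConf (hB : ∀ e, ι e ∉ B) (hBc : B.card + 3 = k) : Conf k where
  a i := vtx ι B hB hBc (star4 i) (star4_card i)
  inter i j h := by
    change ((B ∪ (star4 i).map ι) ∩ (B ∪ (star4 j).map ι)).card = k - 2
    rw [union_inter_card ι B hB, star4_inter i j h]; omega
  par x := by
    have key : ∀ i : Fin 4, (x.1 ∩ (vtx ι B hB hBc (star4 i) (star4_card i)).1).card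
        = (x.1 ∩ B).card + ∑ e ∈ star4 i, (if ι e ∈ x.1 then 1 else 0) := by
      intro i
      change (x.1 ∩ (B ∪ (star4 i).map ι)).card = _
      rw [Finset.inter_union_distrib_left, Finset.card_union_of_disjoint, inter_map_card]
      rw [Finset.disjoint_left]
      intro a ha hm
      rw [mem_inter] at ha hm
      rw [Finset.mem_map] at hm
      obtain ⟨_, e, _, rfl⟩ := hm
      exact hB e ha.2
    simp_rw [key]
    rw [Finset.sum_add_distrib, Fin.sum_univ_four (f := fun i => ∑ e ∈ star4 i, _)]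
    have s0 : ∀ f : Fin 6 → ℕ, ∑ e ∈ star4 0, f e = f 0 + f 1 + f 2 := by
      intro f; simp [star4]; ring
    have s1 : ∀ f : Fin 6 → ℕ, ∑ e ∈ star4 1, f e = f 0 + f 3 + f 4 := by
      intro f; simp [star4]; ring
    have s2 : ∀ f : Fin 6 → ℕ, ∑ e ∈ star4 2, f e = f 1 + f 3 + f 5 := by
      intro f; simp [star4]; ring
    have s3 : ∀ f : Fin 6 → ℕ, ∑ e ∈ star4 3, f e = f 2 + f 4 + f 5 := by
      intro f; simp [star4]; ring
    rw [s0, s1, s2, s3]
    simp only [Finset.sum_const, Finset.card_univ, Fintype.card_fin, smul_eq_mul]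
    generalize (if ι 0 ∈ x.1 then 1 else 0) = f0
    generalize (if ι 1 ∈ x.1 then 1 else 0) = f1
    generalize (if ι 2 ∈ x.1 then 1 else 0) = f2
    generalize (if ι 3 ∈ x.1 then 1 else 0) = f3
    generalize (if ι 4 ∈ x.1 then 1 else 0) = f4
    generalize (if ι 5 ∈ x.1 then 1 else 0) = f5
    exact ⟨2 * (x.1 ∩ B).card + f0 + f1 + f2 + f3 + f4 + f5, by ring⟩

theorem exists_setup (hk : 3 ≤ k) : ∃ (ι : Fin 6 ↪ Fin (2 * k)) (B : Finset (Fin (2 * k))),
    (∀ e, ι e ∉ B) ∧ B.card + 3 = k := by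
  let ι : Fin 6 ↪ Fin (2 * k) := Fin.castLEEmb (by omega)
  have h1 : k - 3 ≤ ((univ : Finset (Fin 6)).map ι)ᶜ.card := by
    rw [Finset.card_compl, Finset.card_map, Finset.card_univ, Fintype.card_fin, Fintype.card_fin]
    omega
  obtain ⟨B, hB, hBc⟩ := Finset.exists_subset_card_eq h1
  refine ⟨ι, B, ?_, by omega⟩
  intro e he
  have := hB he
  simp at this

theorem exists_mate (hk : 5 ≤ k) : ∃ H : SimpleGraph (KSub (2 * k) k),
    (∀ (_ : DecidableRel H.Adj) (_ : DecidableRel (genJohnson (evenSet k) (2 * k) k).Adj),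
      (H.adjMatrix ℝ).charpoly = ((genJohnson (evenSet k) (2 * k) k).adjMatrix ℝ).charpoly) ∧
    IsEmpty (genJohnson (evenSet k) (2 * k) k ≃g H) := by
  obtain ⟨ι, B, hB, hBc⟩ := exists_setup (k := k) (by omega)
  let F := starConf ι B hB hBc
  refine ⟨F.mate (by omega), ?_, ?_⟩
  · intro i1 i2
    have h := F.mate_charpoly (by omega)
    have e1 : i1 = (fun a b => Classical.propDecidable _) := Subsingleton.elim _ _
    have e2 : i2 = (fun a b => Classical.propDecidable _) := Subsingleton.elim _ _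
    rw [e1, e2]
    exact h
  · refine F.not_iso hk (vtx ι B hB hBc {0, 1, 3} (by decide)) ?_ ?_
    · intro i hi
      change ((B ∪ ({0, 1, 3} : Finset (Fin 6)).map ι) ∩ (B ∪ (star4 i).map ι)).card = k - 1
      rw [union_inter_card ι B hB]
      have : (({0, 1, 3} : Finset (Fin 6)) ∩ star4 i).card = 2 := by
        revert hi; revert i; decide
      rw [this]; omega
    · change ((B ∪ ({0, 1, 3} : Finset (Fin 6)).map ι) ∩ (B ∪ (star4 3).map ι)).card = k - 3
      rw [union_inter_card ι B hB]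
      have : (({0, 1, 3} : Finset (Fin 6)) ∩ star4 3).card = 0 := by decide
      rw [this]; omega

end

end Pool.Agent.Helper64
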