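import Mathlib
import Pool.Agent.Helper64.JohnsonEven2

namespace Pool.Agent.Helper64

set_option linter.unusedSimpArgs false

open Finset Matrix

theorem kt4 : kt 4 0 = 70 ∧ kt 4 2 = 6 ∧ kt 4 4 = 70 := by
  have h0 : kt 4 0 = 70 := by
    rw [kt_zero]; have : Nat.centralBinom 4 = 70 := by decide
    rw [this]; rfl
  have h1 := kt_ratio 0 4 (by norm_num)
  have h2 := kt_ratio 1 4 (by norm_num)
  have h4 : kt 4 4 = 70 := by
    rw [kt_self]; have : Nat.centralBinom 4 = 70 := by decide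
    rw [this]; norm_num
  push_cast at h1 h2
  norm_num at h1 h2
  refine ⟨h0, ?_, h4⟩
  rw [h0] at h1
  omega

theorem inter_symmDiff3 {α : Type*} [DecidableEq α] (a b c w : Finset α) :
    w ∩ symmDiff (symmDiff a b) c = symmDiff (symmDiff (a ∩ w) (b ∩ w)) (c ∩ w) := by
  ext i; simp only [mem_inter, mem_symmDiff]; tauto

theorem symmDiff_inter2 {α : Type*} [DecidableEq α] (a b c : Finset α) :
    symmDiff a b ∩ c = symmDiff (a ∩ c) (b ∩ c) := by
  ext i; simp only [mem_inter, mem_symmDiff]; tauto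

/-- triple count -/
noncomputable def tri {V : Type*} [Fintype V] (M : Matrix V V ℝ) (x y z : V) : ℝ :=
  ∑ w, M x w * M y w * M z w

theorem sum_sg3 (x y z : KSub (2 * 4) 4) (hxy : (x.1 ∩ y.1).card = 2) (hyz : (y.1 ∩ z.1).card = 2)
    (hxz : (x.1 ∩ z.1).card = 2) :
    ∑ w, sg x w * sg y w * sg z w = 70 ∨ ∑ w, sg x w * sg y w * sg z w = 6 := by
  have hcard : ∀ a b : Finset (Fin (2 * 4)), (symmDiff a b).card + 2 * (a ∩ b).card = a.card + b.card := by
    intro a b
    have h1 : (symmDiff a b).card = (a \ b).card + (b \ a).card := by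
      rw [symmDiff, Finset.sup_eq_union, Finset.card_union_of_disjoint]
      exact disjoint_sdiff_sdiff
    have h2 := Finset.card_sdiff_add_card_inter a b
    have h3 := Finset.card_sdiff_add_card_inter b a
    rw [Finset.inter_comm b a] at h3
    omega
  have hw : ∀ w : KSub (2 * 4) 4, sg x w * sg y w * sg z w
      = (-1) ^ (w.1 ∩ (symmDiff (symmDiff x.1 y.1) z.1)).card := by
    intro w
    simp only [sg]
    rw [← pow_add, ← pow_add]
    have e1 : (w.1 ∩ symmDiff (symmDiff x.1 y.1) z.1)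
        = symmDiff (symmDiff (x.1 ∩ w.1) (y.1 ∩ w.1)) (z.1 ∩ w.1) := inter_symmDiff3 _ _ _ _
    rw [e1]
    have h1 := hcard (symmDiff (x.1 ∩ w.1) (y.1 ∩ w.1)) (z.1 ∩ w.1)
    have h2 := hcard (x.1 ∩ w.1) (y.1 ∩ w.1)
    obtain ⟨m, hm⟩ : ∃ m, (x.1 ∩ w.1).card + (y.1 ∩ w.1).card + (z.1 ∩ w.1).card
        = (symmDiff (symmDiff (x.1 ∩ w.1) (y.1 ∩ w.1)) (z.1 ∩ w.1)).card + 2 * m := by
      refine ⟨((x.1 ∩ w.1) ∩ (y.1 ∩ w.1)).card + ((symmDiff (x.1 ∩ w.1) (y.1 ∩ w.1)) ∩ (z.1 ∩ w.1)).card, ?_⟩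
      omega
    rw [hm, pow_add, pow_mul, neg_one_sq, one_pow, mul_one]
  have hD : ∃ t, t ≤ 2 ∧ (symmDiff (symmDiff x.1 y.1) z.1).card = 2 * (2 * t) := by
    refine ⟨((x.1 ∩ z.1) ∩ (y.1 ∩ z.1)).card, ?_, ?_⟩
    · have h1 := Finset.card_le_card (Finset.inter_subset_left (s₁ := x.1 ∩ z.1) (s₂ := y.1 ∩ z.1))
      rw [hxz] at h1; exact h1
    · have h1 := hcard (symmDiff x.1 y.1) z.1
      have h2 := hcard x.1 y.1
      have h3 := hcard (x.1 ∩ z.1) (y.1 ∩ z.1)
      have e : symmDiff x.1 y.1 ∩ z.1 = symmDiff (x.1 ∩ z.1) (y.1 ∩ z.1) := symmDiff_inter2 _ _ _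
      rw [e] at h1
      rw [x.2, y.2] at h2
      rw [z.2] at h1
      omega
  obtain ⟨t, ht, hD⟩ := hD
  have h := sum_powersetCard_neg_one (symmDiff (symmDiff x.1 y.1) z.1) 4
  rw [hD, Fintype.card_fin] at h
  have e : 2 * 4 - 2 * (2 * t) = 2 * (4 - 2 * t) := by omega
  rw [e] at h
  have h' : ∑ w, sg x w * sg y w * sg z w = (kt 4 (2 * t) : ℤ) := by
    rw [kt, ← h]
    push_cast
    rw [Finset.sum_subtype ((univ : Finset (Fin (2 * 4))).powersetCard 4) (p := fun A => A.card = 4)]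
    · exact Finset.sum_congr rfl fun w _ => hw w
    · intro z; simp [mem_powersetCard]
  rw [h']
  obtain ⟨k0, k2, k4⟩ := kt4
  interval_cases t
  · left; simp [k0]
  · right; simp [k2]
  · left; simp [k4]

theorem ev4 : ev 4 = 1 := by rw [ev, if_pos (by decide)]

theorem tri_J (x y z : KSub (2 * 4) 4) (hxy : (x.1 ∩ y.1).card = 2) (hyz : (y.1 ∩ z.1).card = 2)
    (hxz : (x.1 ∩ z.1).card = 2) : tri (adjJ 4) x y z = 16 ∨ tri (adjJ 4) x y z = 8 := by
  have gen : ∀ u v : KSub (2 * 4) 4, (u.1 ∩ v.1).card = 2 → u ≠ v ∧ u ≠ cpl v ∧ cpl u ≠ v ∧ cpl u ≠ cpl v ∧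
      sg u v = 1 := by
    intro u v h
    have a1 : u ≠ v := fun e => by rw [← inter_card_eq_iff] at e; omega
    have a2 : cpl u ≠ v := fun e => by rw [← inter_card_zero_iff] at e; omega
    refine ⟨a1, ?_, a2, ?_, ?_⟩
    · intro e; exact a2 ((cpl_eq_iff u v).mpr e)
    · intro e; exact a1 (Conf.cpl_inj e)
    · rw [sg, h]; norm_num
  obtain ⟨p1, p2, p3, p4, p5⟩ := gen x y hxy
  obtain ⟨q1, q2, q3, q4, q5⟩ := gen y z hyz
  obtain ⟨r1, r2, r3, r4, r5⟩ := gen x z hxz
  have sxx : ∀ u : KSub (2 * 4) 4, sg u u = 1 := by intro u; rw [sg, Finset.inter_self, u.2]; norm_num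
  have scp : ∀ u v : KSub (2 * 4) 4, sg u (cpl v) = sg u v := by intro u v; rw [sg_cpl]; norm_num
  -- product expansion
  have hprod : ∀ w, adjJ 4 x w * adjJ 4 y w * adjJ 4 z w
      = (1 + sg x w) / 2 * ((1 + sg y w) / 2) * ((1 + sg z w) / 2)
        - (if w = x then 1 else 0) - (if w = cpl x then 1 else 0)
        - (if w = y then 1 else 0) - (if w = cpl y then 1 else 0)
        - (if w = z then 1 else 0) - (if w = cpl z then 1 else 0) := by
    intro w
    simp only [adjJ, ev4, one_mul]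
    by_cases h1 : w = x
    · subst h1
      have e1 : cpl w ≠ w := cpl_ne (by norm_num) w
      simp [e1, e1.symm, p1, p1.symm, p2, p2.symm, p3, p3.symm, r1, r1.symm, r2, r2.symm, r3, r3.symm, sxx,
        sg_comm y w, sg_comm z w, p5, r5]
    by_cases h2 : w = cpl x
    · subst h2
      have e1 : x ≠ cpl x := (cpl_ne (by norm_num) x).symm
      simp [e1, e1.symm, p1, p1.symm, p2, p2.symm, p3, p3.symm, p4, p4.symm, r1, r1.symm, r2, r2.symm, r3, r3.symm,
        r4, r4.symm, sxx, scp, sg_comm y x, sg_comm z x, p5, r5]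
    by_cases h3 : w = y
    · subst h3
      have e1 : cpl w ≠ w := cpl_ne (by norm_num) w
      simp [e1, e1.symm, p1, p1.symm, p2, p2.symm, p3, p3.symm, q1, q1.symm, q2, q2.symm, q3, q3.symm, sxx,
        sg_comm z w, p5, q5]
    by_cases h4 : w = cpl y
    · subst h4
      have e1 : y ≠ cpl y := (cpl_ne (by norm_num) y).symm
      simp [e1, e1.symm, p1, p1.symm, p2, p2.symm, p3, p3.symm, p4, p4.symm, q1, q1.symm, q2, q2.symm, q3, q3.symm,
        q4, q4.symm, sxx, scp, sg_comm z y, p5, q5]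
    by_cases h5 : w = z
    · subst h5
      have e1 : cpl w ≠ w := cpl_ne (by norm_num) w
      simp [e1, e1.symm, r1, r1.symm, r2, r2.symm, r3, r3.symm, q1, q1.symm, q2, q2.symm, q3, q3.symm, sxx,
        r5, q5]
    by_cases h6 : w = cpl z
    · subst h6
      have e1 : z ≠ cpl z := (cpl_ne (by norm_num) z).symm
      simp [e1, e1.symm, r1, r1.symm, r2, r2.symm, r3, r3.symm, r4, r4.symm, q1, q1.symm, q2, q2.symm, q3, q3.symm,
        q4, q4.symm, sxx, scp, r5, q5]
    have g1 : x ≠ w := fun e => h1 e.symm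
    have g2 : cpl x ≠ w := fun e => h2 e.symm
    have g3 : y ≠ w := fun e => h3 e.symm
    have g4 : cpl y ≠ w := fun e => h4 e.symm
    have g5 : z ≠ w := fun e => h5 e.symm
    have g6 : cpl z ≠ w := fun e => h6 e.symm
    simp only [if_neg h1, if_neg h2, if_neg h3, if_neg h4, if_neg h5, if_neg h6,
      if_neg g1, if_neg g2, if_neg g3, if_neg g4, if_neg g5, if_neg g6, sub_zero]
  have hR : ∀ u : KSub (2 * 4) 4, ∑ w, sg u w = 6 := by
    intro u
    have h1 := rs_eq u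
    rw [rs] at h1
    rw [h1]
    have h2 := kt4.2.1
    rw [kt] at h2
    norm_num at h2
    rw [h2]; norm_num
  have hP : ∀ u v : KSub (2 * 4) 4, (u.1 ∩ v.1).card = 2 → ∑ w, sg u w * sg v w = 6 := by
    intro u v h
    have h1 := sum_sg_sg u v
    rw [h] at h1
    have h2 := kt4.2.1
    have e : 4 - 2 = 2 := by norm_num
    rw [e, h2] at h1
    rw [← Int.cast_ofNat (R := ℝ) 6]
    rw [← h1]
    exact Finset.sum_congr rfl fun w _ => by rw [sg_comm w v]
  have hcard : (∑ w : KSub (2 * 4) 4, (1 : ℝ)) = 70 := by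
    rw [Finset.sum_const, Finset.card_univ, nsmul_eq_mul, card_KSub]
    have : Nat.centralBinom 4 = 70 := by decide
    rw [this]; norm_num
  have htot : tri (adjJ 4) x y z = (106 + ∑ w, sg x w * sg y w * sg z w) / 8 - 6 := by
    rw [tri, Finset.sum_congr rfl (fun w _ => hprod w)]
    simp only [Finset.sum_sub_distrib, Finset.sum_ite_eq', mem_univ, if_true]
    have : ∀ w, (1 + sg x w) / 2 * ((1 + sg y w) / 2) * ((1 + sg z w) / 2)
      = (1 + sg x w + sg y w + sg z w + sg x w * sg y w + sg y w * sg z w + sg x w * sg z w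
        + sg x w * sg y w * sg z w) / 8 := by intro w; ring
    rw [Finset.sum_congr rfl (fun w _ => this w), ← Finset.sum_div]
    simp only [Finset.sum_add_distrib]
    rw [hR x, hR y, hR z, hP x y hxy, hP y z hyz, hP x z hxz, hcard]
    ring
  rcases sum_sg3 x y z hxy hyz hxz with h | h
  · left; rw [htot, h]; norm_num
  · right; rw [htot, h]; norm_num

theorem sg_cpl4 (x y : KSub (2 * 4) 4) : sg x (cpl y) = sg x y := by
  rw [sg_cpl]; norm_num

section

variable (ι : Fin 6 ↪ Fin (2 * 4)) (B : Finset (Fin (2 * 4)))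
  (hB : ∀ e, ι e ∉ B) (hBc : B.card + 3 = 4)

include hB hBc

theorem vtx_inter (S T : Finset (Fin 6)) (hS : S.card = 3) (hT : T.card = 3) :
    ((vtx ι B hB hBc S hS).1 ∩ (vtx ι B hB hBc T hT).1).card = 1 + (S ∩ T).card := by
  change ((B ∪ S.map ι) ∩ (B ∪ T.map ι)).card = _
  rw [union_inter_card ι B hB]; omega

/-- values of the adjacency matrix at a vertex `B ∪ ι(S)` and the switching cells -/
theorem vtx_adj (S : Finset (Fin 6)) (hS : S.card = 3) (p : Fin 4 → ℝ)
    (h : ∀ i : Fin 4, (S ∩ star4 i).card ≠ 3 ∧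
      ((S ∩ star4 i).card = 1 ∧ p i = 1 ∨ ((S ∩ star4 i).card = 0 ∨ (S ∩ star4 i).card = 2) ∧ p i = 0)) :
    (starConf ι B hB hBc).c (vtx ι B hB hBc S hS) = none ∧
    (∀ i, adjJ 4 (vtx ι B hB hBc S hS) ((starConf ι B hB hBc).a i) = p i) ∧
    (∀ i, adjJ 4 (vtx ι B hB hBc S hS) (cpl ((starConf ι B hB hBc).a i)) = p i) := by
  have hin : ∀ i, ((vtx ι B hB hBc S hS).1 ∩ ((starConf ι B hB hBc).a i).1).card = 1 + (S ∩ star4 i).card :=
    fun i => vtx_inter ι B hB hBc S (star4 i) hS (star4_card i)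
  have n1 : ∀ i, vtx ι B hB hBc S hS ≠ (starConf ι B hB hBc).a i := by
    intro i e
    rw [← inter_card_eq_iff, hin i] at e
    have := (h i).1
    omega
  have n2 : ∀ i, cpl (vtx ι B hB hBc S hS) ≠ (starConf ι B hB hBc).a i := by
    intro i e
    rw [← inter_card_zero_iff, hin i] at e
    omega
  have n3 : ∀ i, vtx ι B hB hBc S hS ≠ cpl ((starConf ι B hB hBc).a i) := by
    intro i e; exact n2 i (by rw [e, cpl_cpl])
  have n4 : ∀ i, cpl (vtx ι B hB hBc S hS) ≠ cpl ((starConf ι B hB hBc).a i) := by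
    intro i e; exact n1 i (Conf.cpl_inj e)
  have hsg : ∀ i, (1 + sg (vtx ι B hB hBc S hS) ((starConf ι B hB hBc).a i)) / 2 = p i := by
    intro i
    rw [sg, hin i]
    rcases (h i).2 with ⟨h1, h2⟩ | ⟨h1 | h1, h2⟩ <;> rw [h1, h2] <;> norm_num
  refine ⟨?_, ?_, ?_⟩
  · rw [Conf.c, if_neg, if_neg]
    · rintro ⟨i, hi⟩; exact n2 i hi.symm
    · rintro ⟨i, hi⟩; exact n1 i hi.symm
  · intro i
    rw [adjJ, if_neg (n1 i), if_neg (n2 i), hsg i]; ring
  · intro i
    rw [adjJ, if_neg (n3 i), if_neg (n4 i), sg_cpl4, hsg i]; ring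

theorem tri_mate : ∃ x y z : KSub (2 * 4) 4,
    gmB (starConf ι B hB hBc).c (adjJ 4) x y = 1 ∧
    gmB (starConf ι B hB hBc).c (adjJ 4) y z = 1 ∧
    gmB (starConf ι B hB hBc).c (adjJ 4) x z = 1 ∧
    (tri (gmB (starConf ι B hB hBc).c (adjJ 4)) x y z = 14 ∨
     tri (gmB (starConf ι B hB hBc).c (adjJ 4)) x y z = 6) := by
  obtain ⟨F, hF⟩ : ∃ F, F = starConf ι B hB hBc := ⟨_, rfl⟩
  let S : Finset (Fin 6) := {1, 5, 4}
  let T : Finset (Fin 6) := {2, 4, 3}
  let U : Finset (Fin 6) := {0, 3, 5}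
  have hS : S.card = 3 := by decide
  have hT : T.card = 3 := by decide
  have hU : U.card = 3 := by decide
  have iST : (S ∩ T).card = 1 := by decide
  have iTU : (T ∩ U).card = 1 := by decide
  have iSU : (S ∩ U).card = 1 := by decide
  obtain ⟨cx, ax, bx⟩ := vtx_adj ι B hB hBc S hS ![1, 1, 0, 0] (by
    intro i; fin_cases i
    · exact ⟨by decide, Or.inl ⟨by decide, rfl⟩⟩
    · exact ⟨by decide, Or.inl ⟨by decide, rfl⟩⟩
    · exact ⟨by decide, Or.inr ⟨by decide, rfl⟩⟩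
    · exact ⟨by decide, Or.inr ⟨by decide, rfl⟩⟩)
  obtain ⟨cy, ay, bY⟩ := vtx_adj ι B hB hBc T hT ![1, 0, 1, 0] (by
    intro i; fin_cases i
    · exact ⟨by decide, Or.inl ⟨by decide, rfl⟩⟩
    · exact ⟨by decide, Or.inr ⟨by decide, rfl⟩⟩
    · exact ⟨by decide, Or.inl ⟨by decide, rfl⟩⟩
    · exact ⟨by decide, Or.inr ⟨by decide, rfl⟩⟩)
  obtain ⟨cz, az, bz⟩ := vtx_adj ι B hB hBc U hU ![1, 0, 0, 1] (by
    intro i; fin_cases i
    · exact ⟨by decide, Or.inl ⟨by decide, rfl⟩⟩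
    · exact ⟨by decide, Or.inr ⟨by decide, rfl⟩⟩
    · exact ⟨by decide, Or.inr ⟨by decide, rfl⟩⟩
    · exact ⟨by decide, Or.inl ⟨by decide, rfl⟩⟩)
  rw [← hF] at cx ax bx cy ay bY cz az bz ⊢
  set x := vtx ι B hB hBc S hS
  set y := vtx ι B hB hBc T hT
  set z := vtx ι B hB hBc U hU
  have hxy : (x.1 ∩ y.1).card = 2 := by rw [vtx_inter, iST]
  have hyz : (y.1 ∩ z.1).card = 2 := by rw [vtx_inter, iTU]
  have hxz : (x.1 ∩ z.1).card = 2 := by rw [vtx_inter, iSU]
  have adj1 : ∀ u v : KSub (2 * 4) 4, (u.1 ∩ v.1).card = 2 → adjJ 4 u v = 1 := by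
    intro u v h
    have a1 : u ≠ v := fun e => by rw [← inter_card_eq_iff] at e; omega
    have a2 : cpl u ≠ v := fun e => by rw [← inter_card_zero_iff] at e; omega
    rw [adjJ, if_neg a1, if_neg a2, sg, h]; norm_num
  refine ⟨x, y, z, ?_, ?_, ?_, ?_⟩
  · rw [gmB_none_none _ _ _ _ cx cy, adj1 x y hxy]
  · rw [gmB_none_none _ _ _ _ cy cz, adj1 y z hyz]
  · rw [gmB_none_none _ _ _ _ cx cz, adj1 x z hxz]
  · have h34 : 3 ≤ 4 := by norm_num
    have key : tri (gmB F.c (adjJ 4)) x y z - tri (adjJ 4) x y z = -2 := by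
      rw [tri, tri, ← Finset.sum_sub_distrib]
      rw [← Finset.sum_fiberwise univ F.c]
      rw [Fintype.sum_option]
      have hnone : ∑ w ∈ univ.filter (fun w => F.c w = none),
          (gmB F.c (adjJ 4) x w * gmB F.c (adjJ 4) y w * gmB F.c (adjJ 4) z w
            - adjJ 4 x w * adjJ 4 y w * adjJ 4 z w) = 0 := by
        apply Finset.sum_eq_zero
        intro w hw
        rw [mem_filter] at hw
        rw [gmB_none_none _ _ _ _ cx hw.2, gmB_none_none _ _ _ _ cy hw.2, gmB_none_none _ _ _ _ cz hw.2,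
          sub_self]
      rw [hnone, zero_add, Fin.sum_univ_two, F.sum_zero h34, F.sum_one h34]
      have vx : ∀ i, gmB F.c (adjJ 4) x (F.a i) = 1 - (![1, 1, 0, 0] : Fin 4 → ℝ) i := by
        intro i
        rw [gmB_none_some _ _ _ _ cx 0 (F.c_a i), F.sum_zero h34, Fin.sum_univ_four]
        simp only [ax]
        simp
        norm_num
      have vy : ∀ i, gmB F.c (adjJ 4) y (F.a i) = 1 - (![1, 0, 1, 0] : Fin 4 → ℝ) i := by
        intro i
        rw [gmB_none_some _ _ _ _ cy 0 (F.c_a i), F.sum_zero h34, Fin.sum_univ_four]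
        simp only [ay]
        simp
        norm_num
      have vz : ∀ i, gmB F.c (adjJ 4) z (F.a i) = 1 - (![1, 0, 0, 1] : Fin 4 → ℝ) i := by
        intro i
        rw [gmB_none_some _ _ _ _ cz 0 (F.c_a i), F.sum_zero h34, Fin.sum_univ_four]
        simp only [az]
        simp
        norm_num
      have wx : ∀ i, gmB F.c (adjJ 4) x (cpl (F.a i)) = 1 - (![1, 1, 0, 0] : Fin 4 → ℝ) i := by
        intro i
        rw [gmB_none_some _ _ _ _ cx 1 (F.c_cpl_a h34 i), F.sum_one h34, Fin.sum_univ_four]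
        simp only [bx]
        simp
        norm_num
      have wy : ∀ i, gmB F.c (adjJ 4) y (cpl (F.a i)) = 1 - (![1, 0, 1, 0] : Fin 4 → ℝ) i := by
        intro i
        rw [gmB_none_some _ _ _ _ cy 1 (F.c_cpl_a h34 i), F.sum_one h34, Fin.sum_univ_four]
        simp only [bY]
        simp
        norm_num
      have wz : ∀ i, gmB F.c (adjJ 4) z (cpl (F.a i)) = 1 - (![1, 0, 0, 1] : Fin 4 → ℝ) i := by
        intro i
        rw [gmB_none_some _ _ _ _ cz 1 (F.c_cpl_a h34 i), F.sum_one h34, Fin.sum_univ_four]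
        simp only [bz]
        simp
        norm_num
      simp only [vx, vy, vz, wx, wy, wz, ax, ay, az, bx, bY, bz, Fin.sum_univ_four]
      simp
      norm_num
    rcases tri_J x y z hxy hyz hxz with h | h
    · left; linarith
    · right; linarith

end

open Classical in
theorem iso_tri {V W : Type*} [Fintype V] [Fintype W] (G : SimpleGraph V) (H : SimpleGraph W)
    (φ : G ≃g H) (x y z : V) :
    tri (H.adjMatrix ℝ) (φ x) (φ y) (φ z) = tri (G.adjMatrix ℝ) x y z := by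
  rw [tri, tri]
  symm
  refine Fintype.sum_equiv φ.toEquiv _ _ fun w => ?_
  have a1 : ∀ u, H.Adj (φ u) (φ w) ↔ G.Adj u w := fun u => φ.map_adj_iff
  simp [SimpleGraph.adjMatrix_apply, a1]

theorem exists_mate4 : ∃ H : SimpleGraph (KSub (2 * 4) 4),
    (∀ (_ : DecidableRel H.Adj) (_ : DecidableRel (genJohnson (evenSet 4) (2 * 4) 4).Adj),
      (H.adjMatrix ℝ).charpoly = ((genJohnson (evenSet 4) (2 * 4) 4).adjMatrix ℝ).charpoly) ∧
    IsEmpty (genJohnson (evenSet 4) (2 * 4) 4 ≃g H) := by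
  obtain ⟨ι, B, hB, hBc⟩ := exists_setup (k := 4) (by omega)
  refine ⟨(starConf ι B hB hBc).mate (by omega), ?_, ?_⟩
  · intro i1 i2
    have h := (starConf ι B hB hBc).mate_charpoly (by omega)
    have e1 : i1 = (fun a b => Classical.propDecidable _) := Subsingleton.elim _ _
    have e2 : i2 = (fun a b => Classical.propDecidable _) := Subsingleton.elim _ _
    rw [e1, e2]
    exact h
  · classical
    refine ⟨fun φ => ?_⟩
    obtain ⟨x, y, z, hxy, hyz, hxz, ht⟩ := tri_mate ι B hB hBc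
    have h := iso_tri _ _ φ (φ.symm x) (φ.symm y) (φ.symm z)
    simp only [RelIso.apply_symm_apply] at h
    rw [Conf.mate_adjMatrix, adjJ_eq (by omega)] at h
    have hadj : ∀ u v : KSub (2 * 4) 4, gmB (starConf ι B hB hBc).c (adjJ 4) u v = 1 →
        ((φ.symm u).1 ∩ (φ.symm v).1).card = 2 := by
      intro u v huv
      have h1 : ((starConf ι B hB hBc).mate (by omega)).Adj u v := huv
      have h2 : (genJohnson (evenSet 4) (2 * 4) 4).Adj (φ.symm u) (φ.symm v) := by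
        rw [← φ.map_adj_iff]
        simpa using h1
      obtain ⟨_, h3, h4, h5⟩ := h2
      obtain ⟨r, hr⟩ := h5
      omega
    rcases tri_J _ _ _ (hadj x y hxy) (hadj y z hyz) (hadj x z hxz) with h1 | h1 <;>
      rcases ht with h2 | h2 <;> rw [h1, h2] at h <;> norm_num at h

end Pool.Agent.Helper64
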